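import Pool.Agent.Q329.GE.Main

/-!
# A constant-constant bicriteria approximation for GlobalECC

The definitions used in the statement are in `Pool/Agent/Q329/GE/Defs.lean`:

* `Inst`: an instance (nodes, colors, hyperedges with their colors, budget), of any rank;
* `Inst.mistakes`: the number of hyperedges whose color is missing at one of their nodes;
* `Inst.Feasible m S`: all sets are nonempty and the sum of `|S(v)| - 1` is at most `m`;
* `Inst.code`, `Inst.solCode`: instances and assignments as bit strings;
* `Bicriteria α β A`: the algorithm `A` is a polynomial-time bicriteria `(α, β)`-approximation.
  `PolyTime` (from `Pool/Agent/NPC/Defs.lean`) is polynomial time on bit strings.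

Proof. The variables (delete hyperedge `i`) and (pay for color `c` at node `v`), with one constraint
on four variables for every two hyperedges of different colors with a common node, describe the
problem exactly: it is a vertex cover problem in a 4-uniform hypergraph. The local-ratio method gives
a cover of weight at most four times the least, for any weights of the two kinds of variables; with
`M` the least number of mistakes, the weights `b` for a deletion and `M` for a payment give at most
`8 M` mistakes and `8 b` payments. All values of `M` are tried. The cases `b = 0` and `M = 0` have
their own weights.
-/

set_option autoImplicit false

namespace Pool.Agent.Results.MP_120f76_lc.ConstantConstant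

open Pool.Agent.Q329.GE

/-- GlobalECC has a polynomial-time bicriteria `(8, 8)`-approximation. -/
theorem result : ∃ A : List Bool → List Bool, Bicriteria 8 8 A := bicriteria

end Pool.Agent.Results.MP_120f76_lc.ConstantConstant
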